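import Mathlib

set_option autoImplicit false

open Finset

namespace Pool.Agent.U295.AP

/-- the pairs `(a, d)` of the progressions with `B + 1` terms in `[n]` -/
def prs (B n : ℕ) : Finset (ℕ × ℕ) :=
  ((Icc 1 n) ×ˢ (Icc 1 n)).filter fun q => q.1 + B * q.2 ≤ n

lemma mem_prs {B n : ℕ} (hB : 1 ≤ B) {q : ℕ × ℕ} :
    q ∈ prs B n ↔ 1 ≤ q.1 ∧ 1 ≤ q.2 ∧ q.1 + B * q.2 ≤ n := by
  unfold prs
  rw [mem_filter, mem_product, mem_Icc, mem_Icc]
  constructor
  · rintro ⟨⟨⟨h1, _⟩, h3, _⟩, h5⟩
    exact ⟨h1, h3, h5⟩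
  · rintro ⟨h1, h3, h5⟩
    have : q.2 ≤ B * q.2 := Nat.le_mul_of_pos_left _ hB
    exact ⟨⟨⟨h1, by omega⟩, h3, by omega⟩, h5⟩

lemma card_prs {B n : ℕ} : (prs B n).card = ∑ d ∈ Icc 1 n, (n - B * d) := by
  unfold prs
  rw [card_filter, sum_product_right]
  refine sum_congr rfl fun d _ => ?_
  rw [← card_filter]
  have : (Icc 1 n).filter (fun a => a + B * d ≤ n) = Icc 1 (n - B * d) := by
    ext a
    simp only [mem_filter, mem_Icc]
    omega
  rw [this, Nat.card_Icc]
  omega

lemma tel_up (B n : ℕ) (D : ℕ) : 2 * B * ∑ d ∈ Icc 1 D, (n - B * d) + (n - B * D) ^ 2 ≤ n ^ 2 := by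
  induction D with
  | zero => simp
  | succ D ih =>
    rw [sum_Icc_succ_top (by omega)]
    refine le_trans ?_ ih
    rw [mul_add]
    have h1 : B * (D + 1) = B * D + B := by ring
    rw [h1]
    rcases Nat.lt_or_ge n (B * D + B) with h | h
    · have : n - (B * D + B) = 0 := by omega
      rw [this]
      simp
    · obtain ⟨u, hu⟩ := Nat.exists_eq_add_of_le h
      have e1 : n - (B * D + B) = u := by omega
      have e2 : n - B * D = u + B := by omega
      rw [e1, e2]
      nlinarith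

lemma tel_low (B n : ℕ) (D : ℕ) :
    n ^ 2 ≤ 2 * B * ∑ d ∈ Icc 1 D, (n - B * d) + (n - B * D) ^ 2 + B ^ 2 * D := by
  induction D with
  | zero => simp
  | succ D ih =>
    rw [sum_Icc_succ_top (by omega)]
    refine ih.trans ?_
    rw [mul_add, mul_add (B ^ 2), mul_one]
    have h1 : B * (D + 1) = B * D + B := by ring
    rw [h1]
    rcases Nat.lt_or_ge n (B * D + B) with h | h
    · have : n - (B * D + B) = 0 := by omega
      rw [this]
      have h3 : (n - B * D) ^ 2 ≤ B ^ 2 := Nat.pow_le_pow_left (by omega) 2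
      nlinarith
    · obtain ⟨u, hu⟩ := Nat.exists_eq_add_of_le h
      have e1 : n - (B * D + B) = u := by omega
      have e2 : n - B * D = u + B := by omega
      rw [e1, e2]
      nlinarith

lemma card_up (B n : ℕ) : 2 * B * (prs B n).card ≤ n ^ 2 := by
  rw [card_prs]
  have := tel_up B n n
  omega

lemma card_low {B n : ℕ} (hB : 1 ≤ B) : n ^ 2 ≤ 2 * B * (prs B n).card + B ^ 2 * n := by
  rw [card_prs]
  have h := tel_low B n n
  have : n - B * n = 0 := Nat.sub_eq_zero_of_le (Nat.le_mul_of_pos_left _ hB)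
  rw [this] at h
  simpa using h

/-- the number of monochromatic progressions with `B + 1` terms -/
def mono {r : ℕ} (B n : ℕ) (χ : ℕ → Fin r) : ℕ :=
  ((prs B n).filter fun q => ∀ i ≤ B, χ (q.1 + i * q.2) = χ q.1).card

/-! ### The average over random colourings -/

section avg

variable {r : ℕ}

open Classical in
lemma mono_eq_sum (B n : ℕ) (χ : ℕ → Fin r) :
    (mono B n χ : ℝ) = ∑ q ∈ prs B n, ∑ c : Fin r, if ∀ i ≤ B, χ (q.1 + i * q.2) = c then (1 : ℝ) else 0 := by
  unfold mono
  rw [card_filter, Nat.cast_sum]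
  refine sum_congr rfl fun q _ => ?_
  by_cases h : ∀ i ≤ B, χ (q.1 + i * q.2) = χ q.1
  · rw [if_pos h, Nat.cast_one, sum_eq_single (χ q.1)]
    · rw [if_pos h]
    · intro c _ hc
      rw [if_neg]
      intro h2
      apply hc
      have := h2 0 (Nat.zero_le _)
      rw [zero_mul, add_zero] at this
      exact this.symm
    · intro h; exact absurd (mem_univ _) h
  · rw [if_neg h, Nat.cast_zero]
    symm
    apply sum_eq_zero
    intro c _
    rw [if_neg]
    intro h2
    apply h
    intro i hi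
    rw [h2 i hi]
    have := h2 0 (Nat.zero_le _)
    rw [zero_mul, add_zero] at this
    exact this.symm

/-- a colouring of `{0, ..., n}` as a colouring of `ℕ` -/
def ext (hr : 1 ≤ r) (n : ℕ) (f : Fin (n + 1) → Fin r) : ℕ → Fin r :=
  fun x => if h : x < n + 1 then f ⟨x, h⟩ else ⟨0, hr⟩

open Classical in
lemma avg_one (hr : 1 ≤ r) {B n : ℕ} (hB : 1 ≤ B) (p : ℕ → Fin r → ℝ) (hs : ∀ x, ∑ c, p x c = 1) {q : ℕ × ℕ}
    (hq : q ∈ prs B n) (c : Fin r) :
    ∑ f : Fin (n + 1) → Fin r, (∏ x : Fin (n + 1), p x (f x)) *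
      (if ∀ i ≤ B, ext hr n f (q.1 + i * q.2) = c then (1 : ℝ) else 0) =
      ∏ i ∈ range (B + 1), p (q.1 + i * q.2) c := by
  rw [mem_prs hB] at hq
  obtain ⟨h1, h2, h3⟩ := hq
  have hlt : ∀ i ≤ B, q.1 + i * q.2 < n + 1 := by
    intro i hi
    have := Nat.mul_le_mul_right q.2 hi
    omega
  set S : Finset (Fin (n + 1)) := univ.filter fun x => ∃ i ≤ B, q.1 + i * q.2 = x with hS
  have hterm : ∀ f : Fin (n + 1) → Fin r, (∏ x : Fin (n + 1), p x (f x)) *
      (if ∀ i ≤ B, ext hr n f (q.1 + i * q.2) = c then (1 : ℝ) else 0) =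
      ∏ x : Fin (n + 1), (p x (f x) * if x ∈ S then (if f x = c then (1 : ℝ) else 0) else 1) := by
    intro f
    rw [prod_mul_distrib]
    congr 1
    by_cases h : ∀ i ≤ B, ext hr n f (q.1 + i * q.2) = c
    · rw [if_pos h]
      symm
      apply prod_eq_one
      intro x _
      by_cases hx : x ∈ S
      · rw [if_pos hx, if_pos]
        rw [hS, mem_filter] at hx
        obtain ⟨_, i, hi, hix⟩ := hx
        have := h i hi
        unfold ext at this
        rw [dif_pos (hlt i hi)] at this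
        rw [← this]
        congr 1
        exact Fin.ext hix.symm
      · rw [if_neg hx]
    · rw [if_neg h]
      push Not at h
      obtain ⟨i, hi, hne⟩ := h
      symm
      apply prod_eq_zero (mem_univ (⟨q.1 + i * q.2, hlt i hi⟩ : Fin (n + 1)))
      rw [if_pos, if_neg]
      · intro h
        apply hne
        unfold ext
        rw [dif_pos (hlt i hi)]
        exact h
      · rw [hS, mem_filter]
        exact ⟨mem_univ _, i, hi, rfl⟩
  rw [sum_congr rfl fun f _ => hterm f]
  have hpi := Finset.prod_univ_sum (fun _ : Fin (n + 1) => (univ : Finset (Fin r)))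
    (fun x c' => p x c' * if x ∈ S then (if c' = c then (1 : ℝ) else 0) else 1)
  rw [Fintype.piFinset_univ] at hpi
  rw [← hpi]
  have hin : ∀ x : Fin (n + 1), ∑ c' : Fin r, (p x c' * if x ∈ S then (if c' = c then (1 : ℝ) else 0) else 1) =
      if x ∈ S then p x c else 1 := by
    intro x
    by_cases hx : x ∈ S
    · simp [hx]
    · simp only [hx, if_false, mul_one]
      exact hs x
  rw [prod_congr rfl fun x _ => hin x, prod_ite_mem, univ_inter]
  symm
  refine prod_bij (fun i hi => (⟨q.1 + i * q.2, hlt i (by rw [mem_range] at hi; omega)⟩ : Fin (n + 1))) ?_ ?_ ?_ ?_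
  · intro i hi
    rw [mem_range] at hi
    rw [hS, mem_filter]
    exact ⟨mem_univ _, i, by omega, rfl⟩
  · intro i _ j _ h
    have := congrArg Fin.val h
    simp only [] at this
    have h4 : i * q.2 = j * q.2 := by omega
    exact Nat.eq_of_mul_eq_mul_right (by omega) h4
  · intro x hx
    rw [hS, mem_filter] at hx
    obtain ⟨_, i, hi, hix⟩ := hx
    exact ⟨i, by rw [mem_range]; omega, Fin.ext hix⟩
  · intro i _
    rfl

/-- **a colouring which is at least as good as the average** -/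
theorem exists_le_avg (hr : 1 ≤ r) {B n : ℕ} (hB : 1 ≤ B) (p : ℕ → Fin r → ℝ) (hp : ∀ x c, 0 ≤ p x c)
    (hs : ∀ x, ∑ c, p x c = 1) :
    ∃ χ : ℕ → Fin r, (mono B n χ : ℝ) ≤ ∑ q ∈ prs B n, ∑ c : Fin r, ∏ i ∈ range (B + 1), p (q.1 + i * q.2) c := by
  classical
  set E := ∑ q ∈ prs B n, ∑ c : Fin r, ∏ i ∈ range (B + 1), p (q.1 + i * q.2) c with hE
  have hW1 : ∑ f : Fin (n + 1) → Fin r, ∏ x : Fin (n + 1), p x (f x) = 1 := by
    have hpi := Finset.prod_univ_sum (fun _ : Fin (n + 1) => (univ : Finset (Fin r))) (fun x c' => p x c')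
    rw [Fintype.piFinset_univ] at hpi
    rw [← hpi]
    exact prod_eq_one fun x _ => hs x
  have hW0 : ∀ f : Fin (n + 1) → Fin r, 0 ≤ ∏ x : Fin (n + 1), p x (f x) := fun f =>
    prod_nonneg fun x _ => hp _ _
  have havg : ∑ f : Fin (n + 1) → Fin r, (∏ x : Fin (n + 1), p x (f x)) * (mono B n (ext hr n f) : ℝ) = E := by
    have : ∀ f : Fin (n + 1) → Fin r, (∏ x : Fin (n + 1), p x (f x)) * (mono B n (ext hr n f) : ℝ) =
        ∑ q ∈ prs B n, ∑ c : Fin r, (∏ x : Fin (n + 1), p x (f x)) *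
          (if ∀ i ≤ B, ext hr n f (q.1 + i * q.2) = c then (1 : ℝ) else 0) := by
      intro f
      rw [mono_eq_sum, mul_sum]
      exact sum_congr rfl fun q _ => by rw [mul_sum]
    rw [sum_congr rfl fun f _ => this f, sum_comm]
    rw [hE]
    refine sum_congr rfl fun q hq => ?_
    rw [sum_comm]
    exact sum_congr rfl fun c _ => avg_one hr hB p hs hq c
  by_contra hcon
  push Not at hcon
  have hlt : ∑ f : Fin (n + 1) → Fin r, (∏ x : Fin (n + 1), p x (f x)) * E <
      ∑ f : Fin (n + 1) → Fin r, (∏ x : Fin (n + 1), p x (f x)) * (mono B n (ext hr n f) : ℝ) := by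
    apply sum_lt_sum
    · intro f _
      exact mul_le_mul_of_nonneg_left (hcon _).le (hW0 f)
    · by_contra hno
      push Not at hno
      have hz : ∀ f : Fin (n + 1) → Fin r, ∏ x : Fin (n + 1), p x (f x) = 0 := by
        intro f
        by_contra hne
        have hpos := lt_of_le_of_ne (hW0 f) (Ne.symm hne)
        have := hno f (mem_univ _)
        have h2 := mul_lt_mul_of_pos_left (hcon (ext hr n f)) hpos
        linarith
      rw [sum_eq_zero fun f _ => hz f] at hW1
      norm_num at hW1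
  rw [← sum_mul, hW1, one_mul, havg] at hlt
  exact lt_irrefl _ hlt

end avg

end Pool.Agent.U295.AP
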