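import Mathlib

set_option autoImplicit false

open Finset

namespace Pool.Agent.U295.AP

/-! ### The expansion of a product -/

/-- the second elementary symmetric function of `f 0, ..., f (m - 1)` -/
def e2 (f : ℕ → ℝ) (m : ℕ) : ℝ := ∑ j ∈ range m, ∑ i ∈ range j, f i * f j

lemma abs_e2_le (f : ℕ → ℝ) (hf : ∀ i, |f i| ≤ 1) (m : ℕ) : |e2 f m| ≤ m ^ 2 := by
  unfold e2
  refine (abs_sum_le_sum_abs _ _).trans ?_
  have h1 : ∀ j ∈ range m, |∑ i ∈ range j, f i * f j| ≤ m := by
    intro j hj
    refine (abs_sum_le_sum_abs _ _).trans ?_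
    have : ∀ i ∈ range j, |f i * f j| ≤ 1 := by
      intro i _
      rw [abs_mul]
      exact mul_le_one₀ (hf i) (abs_nonneg _) (hf j)
    refine (sum_le_sum this).trans ?_
    rw [sum_const, card_range, nsmul_eq_mul, mul_one]
    exact_mod_cast (mem_range.1 hj).le
  refine (sum_le_sum h1).trans ?_
  rw [sum_const, card_range, nsmul_eq_mul]
  exact le_of_eq (by ring)

lemma taylor (m : ℕ) : ∃ C : ℝ, 0 ≤ C ∧ ∀ f : ℕ → ℝ, (∀ i, |f i| ≤ 1) → ∀ t : ℝ, |t| ≤ 1 →
    |∏ i ∈ range m, (1 + t * f i) - (1 + t * ∑ i ∈ range m, f i + t ^ 2 * e2 f m)| ≤ C * |t| ^ 3 := by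
  induction m with
  | zero =>
    refine ⟨0, le_rfl, fun f _ t _ => ?_⟩
    simp [e2]
  | succ m ih =>
    obtain ⟨C, hC, h⟩ := ih
    refine ⟨2 * C + m ^ 2, by positivity, fun f hf t ht => ?_⟩
    have h1 := h f hf t ht
    set P := ∏ i ∈ range m, (1 + t * f i) with hP
    set s := ∑ i ∈ range m, f i with hs
    set R := P - (1 + t * s + t ^ 2 * e2 f m) with hR
    have he : e2 f (m + 1) = e2 f m + s * f m := by
      unfold e2
      rw [sum_range_succ, hs, sum_mul]
    rw [prod_range_succ, sum_range_succ, he, ← hP, ← hs]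
    have e1 : P * (1 + t * f m) - (1 + t * (s + f m) + t ^ 2 * (e2 f m + s * f m)) =
        R * (1 + t * f m) + t ^ 3 * (f m * e2 f m) := by
      rw [hR]; ring
    rw [e1]
    have h2 : |1 + t * f m| ≤ 2 := by
      have : |t * f m| ≤ 1 := by
        rw [abs_mul]
        exact mul_le_one₀ ht (abs_nonneg _) (hf m)
      calc |1 + t * f m| ≤ |(1 : ℝ)| + |t * f m| := abs_add_le _ _
        _ ≤ 2 := by rw [abs_one]; linarith
    have h3 : |f m * e2 f m| ≤ m ^ 2 := by
      rw [abs_mul]
      calc |f m| * |e2 f m| ≤ 1 * m ^ 2 := mul_le_mul (hf m) (abs_e2_le f hf m) (abs_nonneg _) (by norm_num)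
        _ = _ := one_mul _
    have h4 : 0 ≤ |t| ^ 3 := by positivity
    calc |R * (1 + t * f m) + t ^ 3 * (f m * e2 f m)|
        ≤ |R * (1 + t * f m)| + |t ^ 3 * (f m * e2 f m)| := abs_add_le _ _
      _ = |R| * |1 + t * f m| + |t| ^ 3 * |f m * e2 f m| := by rw [abs_mul, abs_mul, abs_pow]
      _ ≤ (C * |t| ^ 3) * 2 + |t| ^ 3 * m ^ 2 := by gcongr
      _ = _ := by ring

/-! ### The blocks -/

/-- the indicator function of a finite set -/
def ind (s : Finset ℕ) (x : ℕ) : ℝ := if x ∈ s then 1 else 0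

lemma sum_ind {s t : Finset ℕ} (h : s ⊆ t) (F : ℕ → ℝ) : ∑ x ∈ t, ind s x * F x = ∑ x ∈ s, F x := by
  unfold ind
  have : ∀ x ∈ t, (if x ∈ s then (1 : ℝ) else 0) * F x = if x ∈ s then F x else 0 := by
    intro x _
    split_ifs <;> simp
  rw [sum_congr rfl this, sum_ite_mem, inter_eq_right.2 h]

lemma sum_ind_one {s t : Finset ℕ} (h : s ⊆ t) : ∑ x ∈ t, ind s x = s.card := by
  have := sum_ind h (fun _ => 1)
  simp only [mul_one] at this
  rw [this]
  simp

/-- the four blocks, `w` is their length -/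
def s1 (B w : ℕ) : Finset ℕ := Ico (4 * B ^ 2 * w) ((4 * B ^ 2 + 1) * w)
def s2 (B w : ℕ) : Finset ℕ := Ico ((4 * B + 1) * w) ((4 * B + 2) * w)
def s3 (B w : ℕ) : Finset ℕ := Ico ((4 * B ^ 2 + 2 * B) * w) ((4 * B ^ 2 + 2 * B + 1) * w)
def s4 (B w : ℕ) : Finset ℕ := Ico ((4 * B + 3) * w) ((4 * B + 4) * w)

def M (B w : ℕ) : ℕ := (4 * B ^ 2 + 2 * B + 1) * w

def ph (B w : ℕ) (x : ℕ) : ℝ := ind (s2 B w) x - ind (s4 B w) x
def ps (B w : ℕ) (x : ℕ) : ℝ := ind (s3 B w) x - ind (s1 B w) x

/-- the profile -/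
def g (B w : ℕ) (x : ℕ) : ℝ := ph B w x + ps B w x

lemma card_s1 (B w : ℕ) : (s1 B w).card = w := by
  unfold s1; rw [Nat.card_Ico, ← Nat.sub_mul]; simp
lemma card_s2 (B w : ℕ) : (s2 B w).card = w := by
  unfold s2; rw [Nat.card_Ico, ← Nat.sub_mul]; simp
lemma card_s3 (B w : ℕ) : (s3 B w).card = w := by
  unfold s3; rw [Nat.card_Ico, ← Nat.sub_mul]; simp
lemma card_s4 (B w : ℕ) : (s4 B w).card = w := by
  unfold s4; rw [Nat.card_Ico, ← Nat.sub_mul]; simp

variable {B w : ℕ}

lemma sub1 (hB : 2 ≤ B) : s1 B w ⊆ range (M B w) := by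
  intro x hx
  unfold s1 at hx; unfold M
  rw [mem_Ico] at hx
  rw [mem_range]
  refine lt_of_lt_of_le hx.2 (Nat.mul_le_mul_right _ (by omega))
lemma sub3 : s3 B w ⊆ range (M B w) := by
  intro x hx
  unfold s3 at hx; unfold M
  rw [mem_Ico] at hx
  rw [mem_range]
  exact hx.2
lemma sub2 (hB : 2 ≤ B) : s2 B w ⊆ range (M B w) := by
  intro x hx
  unfold s2 at hx; unfold M
  rw [mem_Ico] at hx
  rw [mem_range]
  refine lt_of_lt_of_le hx.2 (Nat.mul_le_mul_right _ (by nlinarith))
lemma sub4 (hB : 2 ≤ B) : s4 B w ⊆ range (M B w) := by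
  intro x hx
  unfold s4 at hx; unfold M
  rw [mem_Ico] at hx
  rw [mem_range]
  refine lt_of_lt_of_le hx.2 (Nat.mul_le_mul_right _ (by nlinarith))

lemma ph_ne {x : ℕ} (h : ph B w x ≠ 0) : (4 * B + 1) * w ≤ x ∧ x < (4 * B + 4) * w := by
  by_contra hcon
  apply h
  unfold ph ind
  rw [if_neg, if_neg, sub_zero]
  · intro h4
    unfold s4 at h4
    rw [mem_Ico] at h4
    apply hcon
    constructor
    · nlinarith [h4.1]
    · exact h4.2
  · intro h4
    unfold s2 at h4
    rw [mem_Ico] at h4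
    apply hcon
    constructor
    · exact h4.1
    · nlinarith [h4.2]

lemma ps_ne {x : ℕ} (h : ps B w x ≠ 0) : 4 * B ^ 2 * w ≤ x ∧ x < M B w := by
  by_contra hcon
  apply h
  unfold ps ind
  rw [if_neg, if_neg, sub_zero]
  · intro h4
    unfold s1 at h4
    rw [mem_Ico] at h4
    apply hcon
    constructor
    · exact h4.1
    · unfold M; nlinarith [h4.2]
  · intro h4
    unfold s3 at h4
    rw [mem_Ico] at h4
    apply hcon
    constructor
    · nlinarith [h4.1]
    · exact h4.2

lemma sum_ph (hB : 2 ≤ B) : ∑ x ∈ range (M B w), ph B w x = 0 := by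
  unfold ph
  rw [sum_sub_distrib, sum_ind_one (sub2 hB), sum_ind_one (sub4 hB), card_s2, card_s4, sub_self]

lemma sum_ps (hB : 2 ≤ B) : ∑ x ∈ range (M B w), ps B w x = 0 := by
  unfold ps
  rw [sum_sub_distrib, sum_ind_one sub3, sum_ind_one (sub1 hB), card_s3, card_s1, sub_self]

/-- a sum over the pairs `x < y` is not positive if the sum of the values is zero -/
lemma pairs_nonpos (S : Finset ℕ) (h : ℕ → ℝ) (h0 : ∑ x ∈ S, h x = 0) :
    ∑ x ∈ S, ∑ y ∈ S, (if x < y then h x * h y else 0) ≤ 0 := by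
  set A := ∑ x ∈ S, ∑ y ∈ S, (if x < y then h x * h y else 0) with hA
  have hA' : ∑ x ∈ S, ∑ y ∈ S, (if y < x then h x * h y else 0) = A := by
    rw [sum_comm, hA]
    refine sum_congr rfl fun x _ => sum_congr rfl fun y _ => ?_
    rw [mul_comm]
  have hD : ∑ x ∈ S, ∑ y ∈ S, (if x = y then h x * h y else 0) = ∑ x ∈ S, h x ^ 2 := by
    refine sum_congr rfl fun x hx => ?_
    rw [sum_ite_eq, if_pos hx, sq]
  have hsum : (∑ x ∈ S, h x) * (∑ y ∈ S, h y) = A + A + ∑ x ∈ S, h x ^ 2 := by
    rw [sum_mul_sum, ← hD]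
    nth_rewrite 2 [← hA']
    rw [hA, ← sum_add_distrib, ← sum_add_distrib]
    refine sum_congr rfl fun x _ => ?_
    rw [← sum_add_distrib, ← sum_add_distrib]
    refine sum_congr rfl fun y _ => ?_
    rcases lt_trichotomy x y with h1 | h1 | h1
    · rw [if_pos h1, if_neg (by omega), if_neg (by omega)]; ring
    · rw [if_neg (by omega), if_neg (by omega), if_pos h1]; ring
    · rw [if_neg (by omega), if_pos h1, if_neg (by omega)]; ring
  rw [h0, zero_mul] at hsum
  have : 0 ≤ ∑ x ∈ S, h x ^ 2 := sum_nonneg fun x _ => sq_nonneg _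
  linarith

/-- the sum belonging to the positions `i < j` -/
def T (B w i j : ℕ) : ℝ := ∑ x ∈ range (M B w), ∑ y ∈ range (M B w),
  (if x < y ∧ i * y < j * x then g B w x * g B w y else 0)

lemma T_eq (hB : 2 ≤ B) {i j : ℕ} (hij : i < j) (hj : j ≤ B) :
    T B w i j = ∑ x ∈ range (M B w), ∑ y ∈ range (M B w), (if x < y then ph B w x * ph B w y else 0) +
      ∑ x ∈ range (M B w), ∑ y ∈ range (M B w), (if x < y then ps B w x * ps B w y else 0) +
      ∑ x ∈ range (M B w), ∑ y ∈ range (M B w), (if i * y < j * x then ph B w x * ps B w y else 0) := by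
  unfold T
  rw [← sum_add_distrib, ← sum_add_distrib]
  refine sum_congr rfl fun x _ => ?_
  rw [← sum_add_distrib, ← sum_add_distrib]
  refine sum_congr rfl fun y _ => ?_
  obtain ⟨m, rfl⟩ : ∃ m, j = i + m := ⟨j - i, by omega⟩
  have hm : 1 ≤ m := by omega
  have hi : i + 1 ≤ B := by omega
  -- the product of the two `ph`
  have h1 : (if x < y ∧ i * y < (i + m) * x then ph B w x * ph B w y else 0) =
      (if x < y then ph B w x * ph B w y else 0) := by
    by_cases hx : ph B w x = 0
    · simp [hx]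
    by_cases hy : ph B w y = 0
    · simp [hy]
    have a1 := ph_ne hx
    have a2 := ph_ne hy
    by_cases hxy : x < y
    · have : i * y < (i + m) * x := by
        obtain ⟨t, rfl⟩ : ∃ t, y = x + t := ⟨y - x, by omega⟩
        have ht : t < 3 * w := by nlinarith [a1.1, a2.2]
        have h3 : i * t ≤ i * (3 * w) := Nat.mul_le_mul_left _ ht.le
        have h4 : i * (3 * w) < (4 * B + 1) * w := by
          have hw : 0 < w := by omega
          have : 3 * i < 4 * B + 1 := by omega
          nlinarith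
        have h5 : x ≤ m * x := Nat.le_mul_of_pos_left _ hm
        nlinarith [a1.1]
      rw [if_pos ⟨hxy, this⟩, if_pos hxy]
    · rw [if_neg (fun h => hxy h.1), if_neg hxy]
  have h2 : (if x < y ∧ i * y < (i + m) * x then ps B w x * ps B w y else 0) =
      (if x < y then ps B w x * ps B w y else 0) := by
    by_cases hx : ps B w x = 0
    · simp [hx]
    by_cases hy : ps B w y = 0
    · simp [hy]
    have a1 := ps_ne hx
    have a2 := ps_ne hy
    by_cases hxy : x < y
    · have : i * y < (i + m) * x := by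
        obtain ⟨t, rfl⟩ : ∃ t, y = x + t := ⟨y - x, by omega⟩
        have ht : t < (2 * B + 1) * w := by
          have := a2.2
          unfold M at this
          nlinarith [a1.1]
        have h3 : i * t ≤ i * ((2 * B + 1) * w) := Nat.mul_le_mul_left _ ht.le
        have h4 : i * ((2 * B + 1) * w) < 4 * B ^ 2 * w := by
          have hw : 0 < w := by
            rcases Nat.eq_zero_or_pos w with h | h
            · subst h; omega
            · exact h
          have : i * (2 * B + 1) < 4 * B ^ 2 := by nlinarith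
          nlinarith
        have h5 : x ≤ m * x := Nat.le_mul_of_pos_left _ hm
        nlinarith [a1.1]
      rw [if_pos ⟨hxy, this⟩, if_pos hxy]
    · rw [if_neg (fun h => hxy h.1), if_neg hxy]
  have h3 : (if x < y ∧ i * y < (i + m) * x then ph B w x * ps B w y else 0) =
      (if i * y < (i + m) * x then ph B w x * ps B w y else 0) := by
    by_cases hx : ph B w x = 0
    · simp [hx]
    by_cases hy : ps B w y = 0
    · simp [hy]
    have a1 := ph_ne hx
    have a2 := ps_ne hy
    have hxy : x < y := by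
      refine lt_of_lt_of_le a1.2 (le_trans ?_ a2.1)
      exact Nat.mul_le_mul_right _ (by nlinarith)
    by_cases h : i * y < (i + m) * x
    · rw [if_pos ⟨hxy, h⟩, if_pos h]
    · rw [if_neg (fun h' => h h'.2), if_neg h]
  have h4 : (if x < y ∧ i * y < (i + m) * x then ps B w x * ph B w y else 0) = 0 := by
    by_cases hx : ps B w x = 0
    · simp [hx]
    by_cases hy : ph B w y = 0
    · simp [hy]
    have a1 := ps_ne hx
    have a2 := ph_ne hy
    have hxy : y < x := by
      refine lt_of_lt_of_le a2.2 (le_trans ?_ a1.1)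
      exact Nat.mul_le_mul_right _ (by nlinarith)
    rw [if_neg (fun h => by omega)]
  rw [← h1, ← h2, ← h3]
  unfold g
  by_cases h : x < y ∧ i * y < (i + m) * x
  · rw [if_pos h] at h4 ⊢
    rw [if_pos h, if_pos h, if_pos h]
    linear_combination h4
  · simp [h]

lemma cross_zero (hB : 2 ≤ B) (j : ℕ) (hj : 1 ≤ j) :
    ∑ x ∈ range (M B w), ∑ y ∈ range (M B w), (if 0 * y < j * x then ph B w x * ps B w y else 0) = 0 := by
  have : ∀ x ∈ range (M B w), ∑ y ∈ range (M B w), (if 0 * y < j * x then ph B w x * ps B w y else 0) = 0 := by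
    intro x _
    rcases Nat.eq_zero_or_pos x with hx | hx
    · subst hx; simp
    · have h1 : ∀ y : ℕ, 0 * y < j * x := fun y => by rw [zero_mul]; positivity
      simp only [h1, if_true]
      rw [← mul_sum, sum_ps hB, mul_zero]
  exact sum_eq_zero this

lemma cross_other (hB : 2 ≤ B) {i j : ℕ} (hi : 1 ≤ i) (hij : i < j) (hj : j ≤ B) (hne : ¬ (i = 1 ∧ j = B)) :
    ∑ x ∈ range (M B w), ∑ y ∈ range (M B w), (if i * y < j * x then ph B w x * ps B w y else 0) = 0 := by
  refine sum_eq_zero fun x _ => sum_eq_zero fun y _ => ?_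
  by_cases hx : ph B w x = 0
  · simp [hx]
  by_cases hy : ps B w y = 0
  · simp [hy]
  have a1 := ph_ne hx
  have a2 := ps_ne hy
  rw [if_neg]
  intro h
  rcases Nat.lt_or_ge i 2 with h2 | h2
  · have hi1 : i = 1 := by omega
    subst hi1
    have hj1 : j + 1 ≤ B := by
      rcases Nat.lt_or_ge j B with h3 | h3
      · exact h3
      · exact absurd ⟨rfl, le_antisymm hj h3⟩ hne
    obtain ⟨b, rfl⟩ : ∃ b, B = b + 1 := ⟨B - 1, by omega⟩
    have h3 : j * x ≤ b * x := Nat.mul_le_mul_right _ (by omega)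
    have h4 : b * x ≤ b * ((4 * (b + 1) + 4) * w) := Nat.mul_le_mul_left _ a1.2.le
    have h5 : b * ((4 * (b + 1) + 4) * w) ≤ 4 * (b + 1) ^ 2 * w := by nlinarith
    omega
  · have h3 : j * x ≤ B * x := Nat.mul_le_mul_right _ hj
    have h4 : B * x ≤ B * ((4 * B + 4) * w) := Nat.mul_le_mul_left _ a1.2.le
    have h5 : B * ((4 * B + 4) * w) ≤ 2 * (4 * B ^ 2 * w) := by nlinarith
    have h6 : 2 * y ≤ i * y := Nat.mul_le_mul_right _ h2
    omega

lemma cross_main (hB : 2 ≤ B) :
    ∑ x ∈ range (M B w), ∑ y ∈ range (M B w), (if 1 * y < B * x then ph B w x * ps B w y else 0) = -(w : ℝ) ^ 2 := by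
  have h0 : ∀ x ∈ range (M B w), ∑ y ∈ range (M B w), (if 1 * y < B * x then ph B w x * ps B w y else 0) =
      ph B w x * ∑ y ∈ range (M B w), (if 1 * y < B * x then ps B w y else 0) := by
    intro x _
    rw [mul_sum]
    refine sum_congr rfl fun y _ => ?_
    split_ifs <;> simp
  rw [sum_congr rfl h0]
  set F : ℕ → ℝ := fun x => ∑ y ∈ range (M B w), (if 1 * y < B * x then ps B w y else 0) with hF
  have h1 : ∀ x ∈ s2 B w, F x = -(w : ℝ) := by
    intro x hx
    unfold s2 at hx
    rw [mem_Ico] at hx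
    simp only [hF]
    have : ∀ y ∈ range (M B w), (if 1 * y < B * x then ps B w y else 0) = - ind (s1 B w) y := by
      intro y _
      unfold ps ind
      by_cases c1 : y ∈ s1 B w
      · have c3 : y ∉ s3 B w := by
          unfold s1 at c1; unfold s3
          rw [mem_Ico] at c1 ⊢
          intro c
          nlinarith [c1.2, c.1]
        have c2 : 1 * y < B * x := by
          unfold s1 at c1
          rw [mem_Ico] at c1
          have : B * ((4 * B + 1) * w) ≤ B * x := Nat.mul_le_mul_left _ hx.1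
          nlinarith [c1.2]
        rw [if_pos c2, if_neg c3, if_pos c1, zero_sub]
      · rw [if_neg c1, neg_zero]
        by_cases c3 : y ∈ s3 B w
        · rw [if_neg]
          unfold s3 at c3
          rw [mem_Ico] at c3
          intro c
          have hx2 := hx.2
          have hB0 : 0 < B := by omega
          have : B * x < B * ((4 * B + 2) * w) := Nat.mul_lt_mul_of_pos_left hx.2 hB0
          nlinarith [c3.1]
        · rw [if_neg c3]
          simp
    rw [sum_congr rfl this, sum_neg_distrib, sum_ind_one (sub1 hB), card_s1]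
  have h2 : ∀ x ∈ s4 B w, F x = 0 := by
    intro x hx
    unfold s4 at hx
    rw [mem_Ico] at hx
    simp only [hF]
    have : ∀ y ∈ range (M B w), (if 1 * y < B * x then ps B w y else 0) = ps B w y := by
      intro y hy
      rw [mem_range] at hy
      unfold M at hy
      rw [if_pos]
      have : B * ((4 * B + 3) * w) ≤ B * x := Nat.mul_le_mul_left _ hx.1
      nlinarith
    rw [sum_congr rfl this, sum_ps hB]
  have h3 : ∑ x ∈ range (M B w), ph B w x * F x = ∑ x ∈ s2 B w, F x - ∑ x ∈ s4 B w, F x := by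
    rw [← sum_ind (sub2 hB), ← sum_ind (sub4 hB), ← sum_sub_distrib]
    refine sum_congr rfl fun x _ => ?_
    unfold ph
    ring
  rw [h3, sum_congr rfl h1, sum_congr rfl h2, sum_const, card_s2, sum_const_zero, nsmul_eq_mul]
  ring

theorem T_nonpos (hB : 2 ≤ B) {i j : ℕ} (hij : i < j) (hj : j ≤ B) : T B w i j ≤ 0 := by
  rw [T_eq hB hij hj]
  have h1 := pairs_nonpos (range (M B w)) (ph B w) (sum_ph hB)
  have h2 := pairs_nonpos (range (M B w)) (ps B w) (sum_ps hB)
  have h3 : ∑ x ∈ range (M B w), ∑ y ∈ range (M B w), (if i * y < j * x then ph B w x * ps B w y else 0) ≤ 0 := by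
    rcases Nat.eq_zero_or_pos i with hi | hi
    · subst hi
      exact (cross_zero hB j (by omega)).le
    · by_cases h : i = 1 ∧ j = B
      · obtain ⟨rfl, rfl⟩ := h
        rw [cross_main hB]
        have : 0 ≤ (w : ℝ) ^ 2 := by positivity
        linarith
      · exact (cross_other hB hi hij hj h).le
  linarith

theorem T_main (hB : 2 ≤ B) : T B w 1 B ≤ -(w : ℝ) ^ 2 := by
  rw [T_eq hB (by omega) le_rfl, cross_main hB]
  have h1 := pairs_nonpos (range (M B w)) (ph B w) (sum_ph hB)
  have h2 := pairs_nonpos (range (M B w)) (ps B w) (sum_ps hB)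
  linarith

end Pool.Agent.U295.AP
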