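import Pool.Agent.U295.AP.Prof

set_option autoImplicit false

open Finset

namespace Pool.Agent.U295.AP

/-- **for all large `n` some colouring is better than the random rate by a constant factor** -/
theorem exists_good {B : ℕ} (hB : 2 ≤ B) {r : ℕ} (hr : 2 ≤ r) : ∃ η : ℝ, 0 < η ∧ ∃ n₀ : ℕ, ∀ n : ℕ, n₀ ≤ n →
    ∃ χ : ℕ → Fin r, (mono B n χ : ℝ) ≤ (1 / (2 * B * (r : ℝ) ^ B) - η) * (n : ℝ) ^ 2 := by
  have hr0 : (0 : ℝ) < r := by exact_mod_cast (by omega : 0 < r)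
  have hB0 : (0 : ℝ) < B := by exact_mod_cast (by omega : 0 < B)
  obtain ⟨C, hC0, hC⟩ := taylor (B + 1)
  set L := B.factorial with hL
  have hL1 : 1 ≤ L := Nat.factorial_pos B
  have hdiv : ∀ m, 1 ≤ m → m ≤ B → m ∣ L := fun m h1 h2 => Nat.dvd_factorial h1 h2
  set K := (B + 1) * (L * (4 * B ^ 2 + 2 * B + 1)) with hK
  have hK1 : 1 ≤ K := by
    rw [hK]
    have : 0 < (B + 1) * (L * (4 * B ^ 2 + 2 * B + 1)) := by positivity
    exact this
  have hK0 : (0 : ℝ) < K := by exact_mod_cast hK1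
  -- the parameter
  obtain ⟨ε, hε0, hε1, hε2⟩ : ∃ ε : ℝ, 0 < ε ∧ ε ≤ 1 ∧ r * C * ε ≤ 1 / (4 * (K : ℝ) ^ 2) := by
    refine ⟨min 1 (1 / (4 * (K : ℝ) ^ 2 * (r * C + 1))), by positivity, min_le_left _ _, ?_⟩
    have h1 : min 1 (1 / (4 * (K : ℝ) ^ 2 * (r * C + 1))) ≤ 1 / (4 * (K : ℝ) ^ 2 * (r * C + 1)) := min_le_right _ _
    calc r * C * min 1 (1 / (4 * (K : ℝ) ^ 2 * (r * C + 1))) ≤ (r * C + 1) * (1 / (4 * (K : ℝ) ^ 2 * (r * C + 1))) := by
          apply mul_le_mul _ h1 (by positivity) (by positivity)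
          linarith
      _ = _ := by field_simp
  refine ⟨(1 / (r : ℝ)) ^ (B + 1) * (ε ^ 2 / (4 * (K : ℝ) ^ 2)), by positivity, 2 * K, fun n hn => ?_⟩
  set w := n / K with hw
  have hwn : K * w ≤ n := Nat.mul_div_le n K
  have hwn2 : (n : ℝ) ≤ 2 * K * w := by
    have h1 : n < K * w + K := by
      have := Nat.lt_mul_div_succ n hK1
      rw [mul_add, mul_one] at this
      exact this
    have h2 : 2 ≤ w := by
      rw [hw, Nat.le_div_iff_mul_le hK1]
      exact hn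
    have h3 : K ≤ K * w := Nat.le_mul_of_pos_right _ (by omega)
    have h4 : n ≤ 2 * K * w := by nlinarith
    exact_mod_cast h4
  have hn' : (B + 1) * (L * M B w) ≤ n := by
    unfold M
    calc (B + 1) * (L * ((4 * B ^ 2 + 2 * B + 1) * w)) = K * w := by rw [hK]; ring
      _ ≤ n := hwn
  obtain ⟨χ, hχ⟩ := avg_bound hB hr hL1 hdiv hC hn' hε0 hε1
  refine ⟨χ, hχ.trans ?_⟩
  set P := ((prs B n).card : ℝ) with hP
  have hP0 : 0 ≤ P := Nat.cast_nonneg _
  have hP1 : P ≤ (n : ℝ) ^ 2 / (2 * B) := by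
    rw [le_div_iff₀ (by positivity)]
    have h1 := card_up B n
    have h2 : (2 * B * (prs B n).card : ℝ) ≤ (n : ℝ) ^ 2 := by exact_mod_cast h1
    linarith
  have hP2 : P ≤ (n : ℝ) ^ 2 := by
    refine hP1.trans ?_
    rw [div_le_iff₀ (by positivity)]
    have hB1 : (1 : ℝ) ≤ 2 * B := by
      have : (2 : ℝ) ≤ B := by exact_mod_cast hB
      linarith
    nlinarith [sq_nonneg (n : ℝ)]
  have h1 : r * P ≤ r * ((n : ℝ) ^ 2 / (2 * B)) := by gcongr
  have h2 : r * C * ε ^ 3 * P ≤ ε ^ 2 * (1 / (4 * (K : ℝ) ^ 2)) * (n : ℝ) ^ 2 := by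
    calc r * C * ε ^ 3 * P = (r * C * ε) * (ε ^ 2 * P) := by ring
      _ ≤ (1 / (4 * (K : ℝ) ^ 2)) * (ε ^ 2 * (n : ℝ) ^ 2) := by
          apply mul_le_mul hε2 _ (by positivity) (by positivity)
          gcongr
      _ = _ := by ring
  have h3 : (n : ℝ) ^ 2 / (4 * (K : ℝ) ^ 2) ≤ (w : ℝ) ^ 2 := by
    rw [div_le_iff₀ (by positivity)]
    calc (n : ℝ) ^ 2 ≤ (2 * K * w) ^ 2 := by gcongr
      _ = _ := by ring
  have h4 : 2 * ε ^ 2 * ((n : ℝ) ^ 2 / (4 * (K : ℝ) ^ 2)) ≤ 2 * ε ^ 2 * (w : ℝ) ^ 2 := by gcongr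
  have h5 : r * P - 2 * ε ^ 2 * (w : ℝ) ^ 2 + r * C * ε ^ 3 * P ≤
      r * ((n : ℝ) ^ 2 / (2 * B)) - ε ^ 2 / (4 * (K : ℝ) ^ 2) * (n : ℝ) ^ 2 := by
    have e1 : 2 * ε ^ 2 * ((n : ℝ) ^ 2 / (4 * (K : ℝ) ^ 2)) = 2 * (ε ^ 2 / (4 * (K : ℝ) ^ 2) * (n : ℝ) ^ 2) := by ring
    have e2 : ε ^ 2 * (1 / (4 * (K : ℝ) ^ 2)) * (n : ℝ) ^ 2 = ε ^ 2 / (4 * (K : ℝ) ^ 2) * (n : ℝ) ^ 2 := by ring
    rw [e1] at h4
    rw [e2] at h2
    linarith
  refine (mul_le_mul_of_nonneg_left h5 (by positivity)).trans (le_of_eq ?_)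
  have e3 : (1 / (r : ℝ)) ^ (B + 1) * (r * ((n : ℝ) ^ 2 / (2 * B))) = 1 / (2 * B * (r : ℝ) ^ B) * (n : ℝ) ^ 2 := by
    rw [pow_succ, one_div, inv_pow]
    field_simp
  rw [mul_sub, e3]
  ring

/-! ### Interpolation between two colourings -/

/-- the first `t` integers get the colour `c` -/
def mix {r : ℕ} (c : Fin r) (χ : ℕ → Fin r) (t : ℕ) : ℕ → Fin r := fun x => if x ≤ t then c else χ x

lemma mono_mix_zero {r : ℕ} (B n : ℕ) (hB : 1 ≤ B) (c : Fin r) (χ : ℕ → Fin r) : mono B n (mix c χ 0) = mono B n χ := by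
  unfold mono
  congr 1
  apply filter_congr
  intro q hq
  rw [mem_prs hB] at hq
  have h : ∀ i, mix c χ 0 (q.1 + i * q.2) = χ (q.1 + i * q.2) := by
    intro i
    unfold mix
    rw [if_neg (by omega)]
  have h0 : mix c χ 0 q.1 = χ q.1 := by
    unfold mix
    rw [if_neg (by omega)]
  simp only [h, h0]

lemma mono_mix_top {r : ℕ} (B n : ℕ) (hB : 1 ≤ B) (c : Fin r) (χ : ℕ → Fin r) :
    mono B n (mix c χ n) = (prs B n).card := by
  unfold mono
  congr 1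
  apply filter_true_of_mem
  intro q hq
  rw [mem_prs hB] at hq
  intro i hi
  have h1 : i * q.2 ≤ B * q.2 := Nat.mul_le_mul_right _ hi
  unfold mix
  rw [if_pos (by omega), if_pos (by omega)]

lemma mono_mix_succ {r : ℕ} (B n : ℕ) (hB : 1 ≤ B) (c : Fin r) (χ : ℕ → Fin r) (t : ℕ) :
    mono B n (mix c χ (t + 1)) ≤ mono B n (mix c χ t) + (B + 1) * n := by
  classical
  unfold mono
  set S := (prs B n).filter fun q => ∀ i ≤ B, mix c χ (t + 1) (q.1 + i * q.2) = mix c χ (t + 1) q.1 with hS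
  set S' := (prs B n).filter fun q => ∀ i ≤ B, mix c χ t (q.1 + i * q.2) = mix c χ t q.1 with hS'
  set R := (prs B n).filter fun q => ∃ i ≤ B, q.1 + i * q.2 = t + 1 with hR
  have h1 : S ⊆ S' ∪ R := by
    intro q hq
    rw [hS, mem_filter] at hq
    rw [mem_union]
    by_cases h : ∃ i ≤ B, q.1 + i * q.2 = t + 1
    · right
      rw [hR, mem_filter]
      exact ⟨hq.1, h⟩
    · left
      push Not at h
      rw [hS', mem_filter]
      refine ⟨hq.1, fun i hi => ?_⟩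
      have e : ∀ i ≤ B, mix c χ t (q.1 + i * q.2) = mix c χ (t + 1) (q.1 + i * q.2) := by
        intro i hi
        have := h i hi
        unfold mix
        by_cases c1 : q.1 + i * q.2 ≤ t
        · rw [if_pos c1, if_pos (by omega)]
        · rw [if_neg c1, if_neg (by omega)]
      have e0 := e 0 (Nat.zero_le _)
      rw [zero_mul, add_zero] at e0
      rw [e i hi, e0]
      exact hq.2 i hi
  have h2 : R.card ≤ (B + 1) * n := by
    have h3 : R ⊆ ((range (B + 1)) ×ˢ (Icc 1 n)).biUnion fun p => {(t + 1 - p.1 * p.2, p.2)} := by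
      intro q hq
      rw [hR, mem_filter, mem_prs hB] at hq
      obtain ⟨⟨h4, h5, h6⟩, i, hi, h7⟩ := hq
      rw [mem_biUnion]
      refine ⟨(i, q.2), ?_, ?_⟩
      · rw [mem_product, mem_range, mem_Icc]
        have : q.2 ≤ B * q.2 := Nat.le_mul_of_pos_left _ hB
        exact ⟨by simp only []; omega, h5, by simp only []; omega⟩
      · rw [mem_singleton]
        exact Prod.ext (by simp only []; omega) rfl
    refine (card_le_card h3).trans (card_biUnion_le.trans ?_)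
    simp
  calc S.card ≤ (S' ∪ R).card := card_le_card h1
    _ ≤ S'.card + R.card := card_union_le _ _
    _ ≤ _ := by omega

/-- discrete intermediate values -/
lemma exists_between {a : ℕ → ℕ} {D N : ℕ} (hstep : ∀ t, a (t + 1) ≤ a t + D) {x : ℝ} (h0 : (a 0 : ℝ) ≤ x)
    (hN : x ≤ a N) : ∃ t, |(a t : ℝ) - x| ≤ D := by
  classical
  have hex : ∃ t, x ≤ a t := ⟨N, hN⟩
  set t := Nat.find hex with ht
  have h1 : x ≤ a t := Nat.find_spec hex
  rcases Nat.eq_zero_or_pos t with h | h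
  · refine ⟨0, ?_⟩
    rw [h] at h1
    have : (a 0 : ℝ) - x = 0 := by linarith
    rw [this, abs_zero]
    exact Nat.cast_nonneg _
  · refine ⟨t, ?_⟩
    have h2 : ¬ x ≤ a (t - 1) := Nat.find_min hex (by omega)
    push Not at h2
    have h3 := hstep (t - 1)
    rw [Nat.sub_add_cancel h] at h3
    have h4 : (a t : ℝ) ≤ a (t - 1) + D := by exact_mod_cast h3
    rw [abs_le]
    have hD : (0 : ℝ) ≤ D := Nat.cast_nonneg _
    constructor <;> linarith

/-- **the answer for the numbers of pairs `(a, d)`** -/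
theorem main_pairs {B : ℕ} (hB : 2 ≤ B) {r : ℕ} (hr : 2 ≤ r) : ∃ δ : ℝ, δ < 1 / (2 * B * (r : ℝ) ^ B) ∧
    ∃ (χ : ℕ → ℕ → Fin r) (C : ℝ), ∀ n : ℕ, |(mono B n (χ n) : ℝ) - δ * (n : ℝ) ^ 2| ≤ C * n := by
  classical
  have hr0 : (0 : ℝ) < r := by exact_mod_cast (by omega : 0 < r)
  have hr1 : (1 : ℝ) ≤ r := by exact_mod_cast (by omega : 1 ≤ r)
  have hB0 : (0 : ℝ) < B := by exact_mod_cast (by omega : 0 < B)
  have hB2 : (2 : ℝ) ≤ B := by exact_mod_cast hB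
  obtain ⟨η, hη, n₀, h⟩ := exists_good hB hr
  set ρ := 1 / (2 * B * (r : ℝ) ^ B) with hρ
  set δ := ρ - η with hδ
  have hρ1 : ρ ≤ 1 / (2 * B) := by
    rw [hρ]
    apply one_div_le_one_div_of_le (by positivity)
    have : (1 : ℝ) ≤ (r : ℝ) ^ B := one_le_pow₀ hr1
    nlinarith
  have hδ1 : |δ| ≤ 1 + |η| := by
    have h1 : ρ ≤ 1 := hρ1.trans (by rw [div_le_one (by positivity)]; linarith)
    have h2 : 0 ≤ ρ := by positivity
    calc |δ| ≤ |ρ| + |η| := abs_sub _ _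
      _ ≤ _ := by rw [abs_of_nonneg h2]; linarith
  -- the largest threshold
  obtain ⟨n₁, hn₁⟩ : ∃ n₁ : ℕ, (B : ℝ) ^ 2 ≤ 2 * B * η * n₁ := by
    obtain ⟨n₁, h1⟩ := exists_nat_ge ((B : ℝ) ^ 2 / (2 * B * η))
    refine ⟨n₁, ?_⟩
    rw [div_le_iff₀ (by positivity)] at h1
    linarith
  have hbig : ∀ n : ℕ, n₀ ≤ n → n₁ ≤ n → ∃ χ : ℕ → Fin r, |(mono B n χ : ℝ) - δ * (n : ℝ) ^ 2| ≤ ((B + 1) * n : ℕ) := by
    intro n hn hn1
    obtain ⟨χ, hχ⟩ := h n hn
    have hlow := card_low (n := n) (show 1 ≤ B by omega)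
    have hlow' : (n : ℝ) ^ 2 ≤ 2 * B * ((prs B n).card : ℝ) + (B : ℝ) ^ 2 * n := by exact_mod_cast hlow
    have hn1' : (n₁ : ℝ) ≤ n := by exact_mod_cast hn1
    have hnn : (0 : ℝ) ≤ n := Nat.cast_nonneg _
    have htop : δ * (n : ℝ) ^ 2 ≤ ((prs B n).card : ℝ) := by
      have h1 : (B : ℝ) ^ 2 * n ≤ 2 * B * η * (n : ℝ) ^ 2 := by
        calc (B : ℝ) ^ 2 * n ≤ (2 * B * η * n₁) * n := by gcongr
          _ ≤ (2 * B * η * n) * n := by gcongr
          _ = _ := by ring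
      have h2 : ρ * (n : ℝ) ^ 2 ≤ 1 / (2 * B) * (n : ℝ) ^ 2 := by gcongr
      have h3 : 1 / (2 * B) * (n : ℝ) ^ 2 ≤ ((prs B n).card : ℝ) + η * (n : ℝ) ^ 2 := by
        rw [one_div, inv_mul_le_iff₀ (by positivity)]
        calc (n : ℝ) ^ 2 ≤ 2 * B * ((prs B n).card : ℝ) + (B : ℝ) ^ 2 * n := hlow'
          _ ≤ 2 * B * ((prs B n).card : ℝ) + 2 * B * η * (n : ℝ) ^ 2 := by linarith
          _ = _ := by ring
      rw [hδ]
      linarith
    obtain ⟨t, ht⟩ := exists_between (a := fun t => mono B n (mix ⟨0, by omega⟩ χ t)) (D := (B + 1) * n) (N := n)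
      (fun t => mono_mix_succ B n (by omega) _ χ t) (x := δ * (n : ℝ) ^ 2)
      (by rw [mono_mix_zero B n (by omega)]; exact hχ)
      (by rw [mono_mix_top B n (by omega)]; exact htop)
    exact ⟨_, ht⟩
  refine ⟨δ, by rw [hδ]; linarith, fun n => if hn : n₀ ≤ n ∧ n₁ ≤ n then (hbig n hn.1 hn.2).choose else fun _ => ⟨0, by omega⟩,
    (B + 1) + (2 + |η|) * (n₀ + n₁), fun n => ?_⟩
  have hnn : (0 : ℝ) ≤ n := Nat.cast_nonneg _
  by_cases hn : n₀ ≤ n ∧ n₁ ≤ n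
  · simp only [dif_pos hn]
    refine ((hbig n hn.1 hn.2).choose_spec).trans ?_
    push_cast
    have : 0 ≤ (2 + |η|) * ((n₀ : ℝ) + n₁) * n := by positivity
    linarith
  · simp only [dif_neg hn]
    have h1 : (mono B n (fun _ => (⟨0, by omega⟩ : Fin r)) : ℝ) ≤ (n : ℝ) ^ 2 := by
      have h2 : mono B n (fun _ => (⟨0, by omega⟩ : Fin r)) ≤ (prs B n).card := card_filter_le _ _
      have h3 := card_up B n
      have h4 : (prs B n).card ≤ 2 * B * (prs B n).card := Nat.le_mul_of_pos_left _ (by omega)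
      exact_mod_cast h2.trans (h4.trans h3)
    have h5 : (0 : ℝ) ≤ mono B n (fun _ => (⟨0, by omega⟩ : Fin r)) := Nat.cast_nonneg _
    have h6 : (n : ℝ) ≤ n₀ + n₁ := by
      have : n ≤ n₀ + n₁ := by
        rw [not_and_or] at hn
        omega
      exact_mod_cast this
    calc |(mono B n (fun _ => (⟨0, by omega⟩ : Fin r)) : ℝ) - δ * (n : ℝ) ^ 2|
        ≤ |(mono B n (fun _ => (⟨0, by omega⟩ : Fin r)) : ℝ)| + |δ * (n : ℝ) ^ 2| := abs_sub _ _
      _ ≤ (n : ℝ) ^ 2 + (1 + |η|) * (n : ℝ) ^ 2 := by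
          rw [abs_of_nonneg h5, abs_mul, abs_of_nonneg (sq_nonneg (n : ℝ))]
          gcongr
      _ = (2 + |η|) * (n * n) := by ring
      _ ≤ (2 + |η|) * ((n₀ + n₁) * n) := by gcongr
      _ ≤ _ := by
          have : 0 ≤ ((B : ℝ) + 1) * n := by positivity
          linarith

/-! ### The progressions as sets -/

/-- the set `{a, a + d, ..., a + B d}` -/
def apSet (B : ℕ) (q : ℕ × ℕ) : Finset ℕ := (range (B + 1)).image fun i => q.1 + i * q.2

lemma apSet_inj {B : ℕ} (hB : 1 ≤ B) {q q' : ℕ × ℕ} (h : apSet B q = apSet B q') : q = q' := by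
  have key : ∀ q q' : ℕ × ℕ, apSet B q = apSet B q' → q'.1 ≤ q.1 ∧ q.1 + B * q.2 ≤ q'.1 + B * q'.2 := by
    intro q q' h
    constructor
    · have h1 : q.1 ∈ apSet B q := by
        unfold apSet
        rw [mem_image]
        exact ⟨0, by rw [mem_range]; omega, by rw [zero_mul, add_zero]⟩
      rw [h] at h1
      unfold apSet at h1
      rw [mem_image] at h1
      obtain ⟨i, _, hi⟩ := h1
      rw [← hi]
      exact Nat.le_add_right _ _
    · have h1 : q.1 + B * q.2 ∈ apSet B q := by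
        unfold apSet
        rw [mem_image]
        exact ⟨B, by rw [mem_range]; omega, rfl⟩
      rw [h] at h1
      unfold apSet at h1
      rw [mem_image] at h1
      obtain ⟨i, hi1, hi⟩ := h1
      rw [mem_range] at hi1
      rw [← hi]
      have := Nat.mul_le_mul_right q'.2 (show i ≤ B by omega)
      omega
  have h1 := key q q' h
  have h2 := key q' q h.symm
  have h3 : q.1 = q'.1 := le_antisymm h2.1 h1.1
  have h4 : B * q.2 = B * q'.2 := by omega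
  exact Prod.ext h3 (Nat.eq_of_mul_eq_mul_left (by omega) h4)

end Pool.Agent.U295.AP
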