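import Pool.Agent.U295.AP.Avg
import Pool.Agent.U295.AP.Blocks

set_option autoImplicit false

open Finset

namespace Pool.Agent.U295.AP

variable {B w : ℕ}

lemma disj_ph_ps (hB : 2 ≤ B) (x : ℕ) : ph B w x = 0 ∨ ps B w x = 0 := by
  by_contra h
  push Not at h
  have a1 := ph_ne h.1
  have a2 := ps_ne h.2
  have : (4 * B + 4) * w ≤ 4 * B ^ 2 * w := Nat.mul_le_mul_right _ (by nlinarith)
  omega

lemma abs_ph (x : ℕ) : |ph B w x| ≤ 1 := by
  unfold ph ind
  split_ifs <;> norm_num

lemma abs_ps (x : ℕ) : |ps B w x| ≤ 1 := by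
  unfold ps ind
  split_ifs <;> norm_num

lemma abs_g (hB : 2 ≤ B) (x : ℕ) : |g B w x| ≤ 1 := by
  unfold g
  rcases disj_ph_ps (w := w) hB x with h | h
  · rw [h, zero_add]; exact abs_ps x
  · rw [h, add_zero]; exact abs_ph x

lemma g_ne (hB : 2 ≤ B) {x : ℕ} (h : g B w x ≠ 0) : x < M B w := by
  by_contra hcon
  apply h
  have h1 : ph B w x = 0 := by
    by_contra h1
    have a1 := ph_ne h1
    have : (4 * B + 4) * w ≤ M B w := Nat.mul_le_mul_right _ (by nlinarith)
    omega
  have h2 : ps B w x = 0 := by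
    by_contra h2
    have a1 := ps_ne h2
    omega
  unfold g
  rw [h1, h2, add_zero]

/-- the profile on the multiples of `L` -/
def f (B L w : ℕ) (z : ℕ) : ℝ := if L ∣ z then g B w (z / L) else 0

lemma abs_f (hB : 2 ≤ B) (L : ℕ) (z : ℕ) : |f B L w z| ≤ 1 := by
  unfold f
  split_ifs
  · exact abs_g hB _
  · simp

/-- the sum over the progressions of the products of the values at the positions `i` and `j` -/
theorem Q_eq (hB : 2 ≤ B) {L : ℕ} (hL : 1 ≤ L) (hdiv : ∀ m, 1 ≤ m → m ≤ B → m ∣ L) {n : ℕ}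
    (hn : (B + 1) * (L * M B w) ≤ n) {i j : ℕ} (hij : i < j) (hj : j ≤ B) :
    ∑ q ∈ prs B n, f B L w (q.1 + i * q.2) * f B L w (q.1 + j * q.2) = T B w i j := by
  classical
  unfold T
  rw [← sum_product', ← sum_filter]
  have hsub : ((prs B n).filter fun q => L ∣ q.1 + i * q.2 ∧ L ∣ q.1 + j * q.2 ∧ (q.1 + j * q.2) / L < M B w) ⊆
      prs B n := filter_subset _ _
  rw [← sum_subset hsub]
  · refine sum_bij (fun q _ => ((q.1 + i * q.2) / L, (q.1 + j * q.2) / L)) ?_ ?_ ?_ ?_
    · intro q hq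
      rw [mem_filter, mem_prs (by omega)] at hq
      obtain ⟨⟨h1, h2, h3⟩, ⟨x, hx⟩, ⟨y, hy⟩, h6⟩ := hq
      rw [hy, Nat.mul_div_cancel_left _ (by omega)] at h6
      simp only [hx, hy, Nat.mul_div_cancel_left _ (show 0 < L by omega)]
      rw [mem_filter, mem_product, mem_range, mem_range]
      have hlt : q.1 + i * q.2 < q.1 + j * q.2 := by
        have := Nat.mul_lt_mul_of_pos_right hij (show 0 < q.2 by omega)
        omega
      rw [hx, hy] at hlt
      have hxy : x < y := Nat.lt_of_mul_lt_mul_left hlt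
      refine ⟨⟨by simp only []; omega, h6⟩, hxy, ?_⟩
      have h7 : i * (L * y) < j * (L * x) := by
        rw [← hx, ← hy]
        have : i * (q.1 + j * q.2) = i * q.1 + i * j * q.2 := by ring
        have h8 : j * (q.1 + i * q.2) = j * q.1 + i * j * q.2 := by ring
        have h9 := Nat.mul_lt_mul_of_pos_right hij (show 0 < q.1 by omega)
        omega
      have h10 : L * (i * y) < L * (j * x) := by
        calc L * (i * y) = i * (L * y) := by ring
          _ < j * (L * x) := h7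
          _ = L * (j * x) := by ring
      exact Nat.lt_of_mul_lt_mul_left h10
    · intro q hq q' hq' h
      rw [mem_filter] at hq hq'
      obtain ⟨_, ⟨x, hx⟩, ⟨y, hy⟩, _⟩ := hq
      obtain ⟨_, ⟨x', hx'⟩, ⟨y', hy'⟩, _⟩ := hq'
      simp only [hx, hy, hx', hy', Nat.mul_div_cancel_left _ (show 0 < L by omega), Prod.mk.injEq] at h
      obtain ⟨rfl, rfl⟩ := h
      have h1 : q.1 + i * q.2 = q'.1 + i * q'.2 := by rw [hx, hx']
      have h2 : q.1 + j * q.2 = q'.1 + j * q'.2 := by rw [hy, hy']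
      obtain ⟨m, rfl⟩ : ∃ m, j = i + m := ⟨j - i, by omega⟩
      rw [add_mul, add_mul] at h2
      have h3 : m * q.2 = m * q'.2 := by omega
      have h4 : q.2 = q'.2 := Nat.eq_of_mul_eq_mul_left (by omega) h3
      rw [h4] at h1
      exact Prod.ext (by omega) h4
    · rintro ⟨x, y⟩ hxy
      rw [mem_filter, mem_product, mem_range, mem_range] at hxy
      obtain ⟨⟨h1, h2⟩, h3, h4⟩ := hxy
      simp only [] at h1 h2 h3 h4
      obtain ⟨t, rfl⟩ : ∃ t, y = x + t := ⟨y - x, by omega⟩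
      obtain ⟨m, rfl⟩ : ∃ m, j = i + m := ⟨j - i, by omega⟩
      obtain ⟨u, hu⟩ := hdiv m (by omega) (by omega)
      have hu0 : 0 < u := by
        rcases Nat.eq_zero_or_pos u with h | h
        · rw [h, mul_zero] at hu; omega
        · exact h
      have h5 : i * t < m * x := by nlinarith
      have h6 : i * (u * t) < L * x := by
        rw [hu]
        calc i * (u * t) = u * (i * t) := by ring
          _ < u * (m * x) := Nat.mul_lt_mul_of_pos_left h5 hu0
          _ = m * u * x := by ring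
      obtain ⟨a, ha⟩ := Nat.exists_eq_add_of_lt h6
      have hq : (a + 1, u * t) ∈ prs B n := by
        rw [mem_prs (by omega)]
        refine ⟨by simp only []; omega, ?_, ?_⟩
        · simp only []
          exact Nat.mul_pos hu0 (by omega)
        · simp only []
          have h7 : a + 1 ≤ L * x := by omega
          have h8 : u * t ≤ L * (x + t) := by
            rw [hu]
            calc u * t ≤ m * (u * t) := Nat.le_mul_of_pos_left _ (by omega)
              _ ≤ m * u * (x + t) := by nlinarith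
          have h9 : L * (x + t) ≤ L * M B w := Nat.mul_le_mul_left _ h2.le
          have h10 : L * x ≤ L * (x + t) := Nat.mul_le_mul_left _ (by omega)
          have h11 : B * (u * t) ≤ B * (L * M B w) := Nat.mul_le_mul_left _ (h8.trans h9)
          calc a + 1 + B * (u * t) ≤ L * M B w + B * (L * M B w) := by omega
            _ = (B + 1) * (L * M B w) := by ring
            _ ≤ n := hn
      have e1 : a + 1 + i * (u * t) = L * x := by omega
      have e2 : a + 1 + (i + m) * (u * t) = L * (x + t) := by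
        calc a + 1 + (i + m) * (u * t) = (a + 1 + i * (u * t)) + m * u * t := by ring
          _ = L * x + L * t := by rw [e1, ← hu]
          _ = _ := by ring
      refine ⟨(a + 1, u * t), ?_, ?_⟩
      · rw [mem_filter]
        refine ⟨hq, ?_, ?_, ?_⟩
        · simp only []; rw [e1]; exact dvd_mul_right _ _
        · simp only []; rw [e2]; exact dvd_mul_right _ _
        · simp only []; rw [e2, Nat.mul_div_cancel_left _ (by omega)]; exact h2
      · simp only []
        rw [e1, e2, Nat.mul_div_cancel_left _ (by omega), Nat.mul_div_cancel_left _ (by omega)]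
    · intro q hq
      rw [mem_filter] at hq
      unfold f
      rw [if_pos hq.2.1, if_pos hq.2.2.1]
  · intro q hq hnot
    rw [mem_filter] at hnot
    unfold f
    by_cases c1 : L ∣ q.1 + i * q.2
    · by_cases c2 : L ∣ q.1 + j * q.2
      · rw [if_pos c1, if_pos c2]
        have c3 : ¬ (q.1 + j * q.2) / L < M B w := fun c3 => hnot ⟨hq, c1, c2, c3⟩
        have : g B w ((q.1 + j * q.2) / L) = 0 := by
          by_contra h
          exact c3 (g_ne hB h)
        rw [this, mul_zero]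
      · rw [if_neg c2, mul_zero]
    · rw [if_neg c1, zero_mul]

/-- the sum over the progressions of the second elementary symmetric functions is negative -/
theorem Q_le (hB : 2 ≤ B) {L : ℕ} (hL : 1 ≤ L) (hdiv : ∀ m, 1 ≤ m → m ≤ B → m ∣ L) {n : ℕ}
    (hn : (B + 1) * (L * M B w) ≤ n) :
    ∑ q ∈ prs B n, e2 (fun i => f B L w (q.1 + i * q.2)) (B + 1) ≤ -(w : ℝ) ^ 2 := by
  unfold e2
  rw [sum_comm]
  have h1 : ∀ j ∈ range (B + 1), ∑ q ∈ prs B n, ∑ i ∈ range j, f B L w (q.1 + i * q.2) * f B L w (q.1 + j * q.2) =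
      ∑ i ∈ range j, T B w i j := by
    intro j hj
    rw [mem_range] at hj
    rw [sum_comm]
    refine sum_congr rfl fun i hi => ?_
    rw [mem_range] at hi
    exact Q_eq hB hL hdiv hn hi (by omega)
  rw [sum_congr rfl h1, sum_range_succ]
  have h2 : ∑ j ∈ range B, ∑ i ∈ range j, T B w i j ≤ 0 := by
    apply sum_nonpos
    intro j hj
    rw [mem_range] at hj
    apply sum_nonpos
    intro i hi
    rw [mem_range] at hi
    exact T_nonpos hB hi (by omega)
  have h3 : ∑ i ∈ range B, T B w i B ≤ -(w : ℝ) ^ 2 := by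
    have h4 : (1 : ℕ) ∈ range B := by rw [mem_range]; omega
    rw [← add_sum_erase _ _ h4]
    have h5 : ∑ i ∈ (range B).erase 1, T B w i B ≤ 0 := by
      apply sum_nonpos
      intro i hi
      rw [mem_erase, mem_range] at hi
      exact T_nonpos hB hi.2 le_rfl
    have := T_main (w := w) hB
    linarith
  linarith

/-- the signs of the colours -/
def sg {r : ℕ} (c : Fin r) : ℝ := if c.1 = 0 then 1 else if c.1 = 1 then -1 else 0

lemma abs_sg {r : ℕ} (c : Fin r) : |sg c| ≤ 1 := by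
  unfold sg
  split_ifs <;> norm_num

lemma sum_sg {r : ℕ} (hr : 2 ≤ r) : ∑ c : Fin r, sg c = 0 := by
  obtain ⟨s, rfl⟩ : ∃ s, r = s + 2 := ⟨r - 2, by omega⟩
  rw [Fin.sum_univ_succ, Fin.sum_univ_succ]
  have : ∀ c : Fin s, sg (c.succ.succ : Fin (s + 2)) = 0 := by
    intro c
    unfold sg
    rw [if_neg (by simp), if_neg (by simp)]
  rw [sum_congr rfl fun c _ => this c]
  simp [sg]

lemma sum_sg_sq {r : ℕ} (hr : 2 ≤ r) : ∑ c : Fin r, sg c ^ 2 = 2 := by
  obtain ⟨s, rfl⟩ : ∃ s, r = s + 2 := ⟨r - 2, by omega⟩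
  rw [Fin.sum_univ_succ, Fin.sum_univ_succ]
  have : ∀ c : Fin s, sg (c.succ.succ : Fin (s + 2)) ^ 2 = 0 := by
    intro c
    unfold sg
    rw [if_neg (by simp), if_neg (by simp)]
    norm_num
  rw [sum_congr rfl fun c _ => this c]
  simp [sg]
  norm_num

/-- **the average over the biased colourings** -/
theorem avg_bound (hB : 2 ≤ B) {r : ℕ} (hr : 2 ≤ r) {L : ℕ} (hL : 1 ≤ L) (hdiv : ∀ m, 1 ≤ m → m ≤ B → m ∣ L)
    {C : ℝ} (hC : ∀ h : ℕ → ℝ, (∀ i, |h i| ≤ 1) → ∀ t : ℝ, |t| ≤ 1 →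
      |∏ i ∈ range (B + 1), (1 + t * h i) - (1 + t * ∑ i ∈ range (B + 1), h i + t ^ 2 * e2 h (B + 1))| ≤ C * |t| ^ 3)
    {n : ℕ} (hn : (B + 1) * (L * M B w) ≤ n) {ε : ℝ} (hε : 0 < ε) (hε1 : ε ≤ 1) :
    ∃ χ : ℕ → Fin r, (mono B n χ : ℝ) ≤ (1 / (r : ℝ)) ^ (B + 1) *
      (r * ((prs B n).card : ℝ) - 2 * ε ^ 2 * (w : ℝ) ^ 2 + r * C * ε ^ 3 * ((prs B n).card : ℝ)) := by
  have hr0 : (0 : ℝ) < r := by exact_mod_cast (by omega : 0 < r)
  have hC0 : 0 ≤ C := by
    have := hC (fun _ => 0) (fun _ => by simp) 1 (by simp)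
    have h2 := abs_nonneg (∏ i ∈ range (B + 1), (1 + (1 : ℝ) * (0 : ℝ)) -
      (1 + 1 * ∑ i ∈ range (B + 1), (0 : ℝ) + 1 ^ 2 * e2 (fun _ => 0) (B + 1)))
    have h3 := h2.trans this
    simpa using h3
  obtain ⟨χ, hχ⟩ := exists_le_avg (r := r) (by omega) (B := B) (n := n) (by omega)
    (fun x c => (1 / (r : ℝ)) * (1 + ε * sg c * f B L w x)) (by
      intro x c
      have h1 : |ε * sg c * f B L w x| ≤ 1 := by
        rw [abs_mul, abs_mul, abs_of_pos hε]
        have h2 : ε * |sg c| ≤ 1 := mul_le_one₀ hε1 (abs_nonneg _) (abs_sg c)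
        exact mul_le_one₀ h2 (abs_nonneg _) (abs_f hB L x)
      have := (abs_le.1 h1).1
      have h3 : 0 ≤ 1 / (r : ℝ) := by positivity
      exact mul_nonneg h3 (by linarith)) (by
      intro x
      rw [← mul_sum, sum_add_distrib, ← sum_mul, ← mul_sum, sum_sg hr, mul_zero, zero_mul, add_zero, sum_const,
        card_univ, Fintype.card_fin, nsmul_eq_mul, mul_one]
      field_simp)
  refine ⟨χ, hχ.trans ?_⟩
  have hterm : ∀ q ∈ prs B n, ∑ c : Fin r, ∏ i ∈ range (B + 1), (1 / (r : ℝ)) * (1 + ε * sg c * f B L w (q.1 + i * q.2)) ≤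
      (1 / (r : ℝ)) ^ (B + 1) * (r + 2 * ε ^ 2 * e2 (fun i => f B L w (q.1 + i * q.2)) (B + 1) + r * C * ε ^ 3) := by
    intro q _
    have h1 : ∀ c : Fin r, ∏ i ∈ range (B + 1), (1 / (r : ℝ)) * (1 + ε * sg c * f B L w (q.1 + i * q.2)) =
        (1 / (r : ℝ)) ^ (B + 1) * ∏ i ∈ range (B + 1), (1 + (ε * sg c) * f B L w (q.1 + i * q.2)) := by
      intro c
      rw [prod_mul_distrib, prod_const, card_range]
    rw [sum_congr rfl fun c _ => h1 c, ← mul_sum]
    apply mul_le_mul_of_nonneg_left _ (by positivity)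
    have h2 : ∀ c : Fin r, ∏ i ∈ range (B + 1), (1 + (ε * sg c) * f B L w (q.1 + i * q.2)) ≤
        1 + (ε * ∑ i ∈ range (B + 1), f B L w (q.1 + i * q.2)) * sg c +
          (ε ^ 2 * e2 (fun i => f B L w (q.1 + i * q.2)) (B + 1)) * sg c ^ 2 + C * ε ^ 3 := by
      intro c
      have h3 : |ε * sg c| ≤ ε := by
        rw [abs_mul, abs_of_pos hε]
        calc ε * |sg c| ≤ ε * 1 := by gcongr; exact abs_sg c
          _ = ε := mul_one _
      have h4 := hC (fun i => f B L w (q.1 + i * q.2)) (fun i => abs_f hB L _) (ε * sg c) (h3.trans hε1)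
      have h5 := (abs_le.1 h4).2
      have h6 : C * |ε * sg c| ^ 3 ≤ C * ε ^ 3 := by gcongr
      linarith
    refine (sum_le_sum fun c _ => h2 c).trans (le_of_eq ?_)
    rw [sum_add_distrib, sum_add_distrib, sum_add_distrib, ← mul_sum, ← mul_sum, sum_sg hr, sum_sg_sq hr]
    simp only [sum_const, card_univ, Fintype.card_fin, nsmul_eq_mul]
    ring
  refine (sum_le_sum hterm).trans ?_
  rw [← mul_sum]
  apply mul_le_mul_of_nonneg_left _ (by positivity)
  rw [sum_add_distrib, sum_add_distrib, ← mul_sum]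
  simp only [sum_const, nsmul_eq_mul]
  have hQ := Q_le (w := w) hB hL hdiv hn
  have h7 : 2 * ε ^ 2 * ∑ q ∈ prs B n, e2 (fun i => f B L w (q.1 + i * q.2)) (B + 1) ≤ 2 * ε ^ 2 * (-(w : ℝ) ^ 2) := by
    apply mul_le_mul_of_nonneg_left hQ (by positivity)
  linarith

end Pool.Agent.U295.AP
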